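import Mathlib

set_option autoImplicit false

namespace Pool.Agent.Results.MP_104382_al.NotFParadoxical

open Matrix

/-- The open unit square `Q = (0,1) x (0,1)`. -/
def openSquare : Set (Fin 2 → ℝ) := {v | ∀ k, 0 < v k ∧ v k < 1}

/-- `E` is `G`-paradoxical, for a subgroup `G` of `SL(2, ℝ)` acting linearly on the plane:
there are positive integers `n, m`, pairwise disjoint subsets `A 1, ..., A n, B 1, ..., B m` of `E`
and elements `g i, h j` of `G` with `E = ⋃ g i (A i) = ⋃ h j (B j)`. -/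
def IsParadoxical (G : Subgroup (SpecialLinearGroup (Fin 2) ℝ)) (E : Set (Fin 2 → ℝ)) : Prop :=
  ∃ (n m : ℕ) (A : Fin n → Set (Fin 2 → ℝ)) (B : Fin m → Set (Fin 2 → ℝ))
    (g : Fin n → SpecialLinearGroup (Fin 2) ℝ) (h : Fin m → SpecialLinearGroup (Fin 2) ℝ),
    0 < n ∧ 0 < m ∧ (∀ i, g i ∈ G) ∧ (∀ j, h j ∈ G) ∧
    (∀ i, A i ⊆ E) ∧ (∀ j, B j ⊆ E) ∧
    Pairwise (fun i i' => Disjoint (A i) (A i')) ∧
    Pairwise (fun j j' => Disjoint (B j) (B j')) ∧
    (∀ i j, Disjoint (A i) (B j)) ∧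
    (⋃ i, (fun v => (g i : Matrix (Fin 2) (Fin 2) ℝ).mulVec v) '' A i) = E ∧
    (⋃ j, (fun v => (h j : Matrix (Fin 2) (Fin 2) ℝ).mulVec v) '' B j) = E

/-- `a = [[1, 2], [0, 1]]`. -/
def a : SpecialLinearGroup (Fin 2) ℤ := ⟨!![1, 2; 0, 1], by simp⟩

/-- `b = [[1, 0], [2, 1]]`. -/
def b : SpecialLinearGroup (Fin 2) ℤ := ⟨!![1, 0; 2, 1], by simp⟩

/-- `F`, the subgroup of `SL(2, ℤ)` generated by `a` and `b`. -/
def F : Subgroup (SpecialLinearGroup (Fin 2) ℤ) := Subgroup.closure {a, b}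

/-- a subgroup of `SL(2, ℤ)` viewed in `SL(2, ℝ)` -/
def toReal (Γ : Subgroup (SpecialLinearGroup (Fin 2) ℤ)) :
    Subgroup (SpecialLinearGroup (Fin 2) ℝ) :=
  Γ.map (SpecialLinearGroup.map (Int.castRingHom ℝ))

/-- an integral matrix sends the centre of the square to a point of the half-integral lattice; if a
point of the open square is sent to the centre by an element of `SL(2, ℤ)`, it is the centre -/
lemma eq_centre (γ : SpecialLinearGroup (Fin 2) ℤ) (x : Fin 2 → ℝ) (hx : x ∈ openSquare)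
    (h : ((SpecialLinearGroup.map (Int.castRingHom ℝ) γ : SpecialLinearGroup (Fin 2) ℝ) :
      Matrix (Fin 2) (Fin 2) ℝ).mulVec x = fun _ => 1 / 2) : x = fun _ => 1 / 2 := by
  have hdet : (γ.1 0 0 : ℝ) * γ.1 1 1 - γ.1 0 1 * γ.1 1 0 = 1 := by
    have h1 := γ.2
    rw [Matrix.det_fin_two] at h1
    exact_mod_cast h1
  have h0 := congrFun h 0
  have h1 := congrFun h 1
  simp only [Matrix.mulVec, dotProduct, Fin.sum_univ_two] at h0 h1
  have e : ∀ i j, (((SpecialLinearGroup.map (Int.castRingHom ℝ) γ :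
      SpecialLinearGroup (Fin 2) ℝ) : Matrix (Fin 2) (Fin 2) ℝ)) i j = (γ.1 i j : ℝ) :=
    fun i j => rfl
  rw [e, e] at h0 h1
  have hx0 : x 0 = ((γ.1 1 1 - γ.1 0 1 : ℤ) : ℝ) / 2 := by
    push_cast
    linear_combination (-x 0) * hdet + (γ.1 1 1 : ℝ) * h0 - (γ.1 0 1 : ℝ) * h1
  have hx1 : x 1 = ((γ.1 0 0 - γ.1 1 0 : ℤ) : ℝ) / 2 := by
    push_cast
    linear_combination (-x 1) * hdet + (γ.1 0 0 : ℝ) * h1 - (γ.1 1 0 : ℝ) * h0
  have key : ∀ (t : ℝ) (n : ℤ), 0 < t → t < 1 → t = (n : ℝ) / 2 → t = 1 / 2 := by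
    intro t n h2 h3 h4
    rw [h4] at h2 h3
    have h5 : (0 : ℝ) < n := by linarith
    have h6 : (n : ℝ) < 2 := by linarith
    have h7 : (0 : ℤ) < n := by exact_mod_cast h5
    have h8 : n < 2 := by exact_mod_cast h6
    have h9 : n = 1 := by omega
    rw [h4, h9]
    norm_num
  funext i
  fin_cases i
  · exact key _ _ (hx 0).1 (hx 0).2 hx0
  · exact key _ _ (hx 1).1 (hx 1).2 hx1

/-- The open unit square is not `F`-paradoxical; more generally it is not paradoxical under any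
subgroup of `SL(2, ℤ)`. -/
theorem result : ¬ IsParadoxical (toReal F) openSquare ∧
    ∀ Γ : Subgroup (SpecialLinearGroup (Fin 2) ℤ), ¬ IsParadoxical (toReal Γ) openSquare := by
  have main : ∀ Γ : Subgroup (SpecialLinearGroup (Fin 2) ℤ),
      ¬ IsParadoxical (toReal Γ) openSquare := by
    rintro Γ ⟨n, m, A, B, g, h, -, -, hg, hh, hA, hB, -, -, hAB, hgA, hhB⟩
    have hc : (fun _ => 1 / 2 : Fin 2 → ℝ) ∈ openSquare := by
      intro k
      constructor <;> norm_num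
    have hc1 := hc
    have hc2 := hc
    rw [← hgA] at hc1
    rw [← hhB] at hc2
    simp only [Set.mem_iUnion, Set.mem_image] at hc1 hc2
    obtain ⟨i, x, hx, hxc⟩ := hc1
    obtain ⟨j, y, hy, hyc⟩ := hc2
    obtain ⟨γ, -, hγ⟩ := hg i
    obtain ⟨δ, -, hδ⟩ := hh j
    rw [← hγ] at hxc
    rw [← hδ] at hyc
    have h1 := eq_centre γ x (hA i hx) hxc
    have h2 := eq_centre δ y (hB j hy) hyc
    rw [h1] at hx
    rw [h2] at hy
    exact Set.disjoint_left.mp (hAB i j) hx hy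
  exact ⟨main F, main⟩

end Pool.Agent.Results.MP_104382_al.NotFParadoxical
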